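import Pool.Agent.H98.SLN.Targets
import Pool.Agent.H95.Cop.Renewal

/-!
# ULK: the links
-/

set_option autoImplicit false

open MeasureTheory ProbabilityTheory Filter Topology
open scoped ENNReal
open Pool.Agent.H95 Pool.Agent.H95.Cop
open Pool.Agent.H96.Cop (pk)
open Pool.Agent.H98.SLN

namespace Pool.Agent.H70.SLN

theorem sum_tele (s : ℝ) (hs : 0 < s) (N : ℕ) :
    ∑ D ∈ Finset.Icc 1 (N + 2), ((max (D - 1) 1 : ℕ) : ℝ) ^ (-(1 + s)) ≤
      2 + 1 / s - 1 / s * ((N : ℝ) + 1) ^ (-s) := by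
  induction N with
  | zero =>
    have h : Finset.Icc 1 (0 + 2) = ({1, 2} : Finset ℕ) := by decide
    rw [h, Finset.sum_pair (by norm_num)]
    have e1 : (max (1 - 1) 1 : ℕ) = 1 := by decide
    have e2 : (max (2 - 1) 1 : ℕ) = 1 := by decide
    rw [e1, e2]
    simp only [Nat.cast_one, Real.one_rpow, Nat.cast_zero, zero_add, mul_one]
    linarith
  | succ N ih =>
    rw [show N + 1 + 2 = (N + 2) + 1 by ring, Finset.sum_Icc_succ_top (by omega)]
    have e : ((max (N + 2 + 1 - 1) 1 : ℕ) : ℝ) = ((N + 1 : ℕ) : ℝ) + 1 := by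
      have : max (N + 2 + 1 - 1) 1 = N + 1 + 1 := by omega
      rw [this]
      push_cast
      ring
    rw [e]
    have h := rpow_tele1 s hs (N + 1) (by omega)
    have h' : (((N + 1 : ℕ) : ℝ) + 1) ^ (-(1 + s)) ≤
        1 / s * (((N + 1 : ℕ) : ℝ) ^ (-s) - (((N + 1 : ℕ) : ℝ) + 1) ^ (-s)) := by
      rw [div_mul_eq_mul_div, one_mul, le_div_iff₀ hs, mul_comm]
      exact h
    have e2 : ((N + 1 : ℕ) : ℝ) = (N : ℝ) + 1 := by push_cast; ring
    rw [e2] at h' ⊢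
    have e3 : 1 / s * (((N : ℝ) + 1) ^ (-s) - ((N : ℝ) + 1 + 1) ^ (-s)) =
      1 / s * ((N : ℝ) + 1) ^ (-s) - 1 / s * ((N : ℝ) + 1 + 1) ^ (-s) := by ring
    rw [e3] at h'
    linarith

theorem sum_le (s : ℝ) (hs : 0 < s) (n : ℕ) :
    ∑ D ∈ Finset.Icc 1 n, ((max (D - 1) 1 : ℕ) : ℝ) ^ (-(1 + s)) ≤ 2 + 1 / s := by
  have h1 : ∑ D ∈ Finset.Icc 1 n, ((max (D - 1) 1 : ℕ) : ℝ) ^ (-(1 + s)) ≤
      ∑ D ∈ Finset.Icc 1 (n + 2), ((max (D - 1) 1 : ℕ) : ℝ) ^ (-(1 + s)) := by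
    refine Finset.sum_le_sum_of_subset_of_nonneg ?_ ?_
    · intro D hD
      rw [Finset.mem_Icc] at hD ⊢
      omega
    · intro D _ _
      exact Real.rpow_nonneg (Nat.cast_nonneg _) _
  have h2 := sum_tele s hs n
  have h3 : 0 ≤ 1 / s * ((n : ℝ) + 1) ^ (-s) := by positivity
  linarith

theorem pf_ULK : T_ULK := by
  intro K α c δ k q hR
  have hδ0 := hR.δ0
  have hδ1 := hR.δ1
  have hα0 : 0 < α := by
    have := hR.α0
    have h2 : (1 : ℝ) / 2 ^ 20 < 1 := by norm_num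
    linarith
  have hc0 := hR.c0
  have hsq : Real.sqrt δ ≤ 1 := by
    rw [Real.sqrt_le_one]
    have h2 : (1 : ℝ) / 2 ^ 20 < 1 := by norm_num
    linarith
  have hqk' : (q : ℝ) ≤ k := by
    refine hR.q3.trans ?_
    calc Real.sqrt δ * (k : ℝ) ≤ 1 * k := mul_le_mul_of_nonneg_right hsq (Nat.cast_nonneg _)
      _ = k := one_mul _
  have hqk : q ≤ k := by exact_mod_cast hqk'
  have hk1 : 1 ≤ k := hR.q1.trans hqk
  have hkpos : (0 : ℝ) < k := by exact_mod_cast hk1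
  constructor
  · intro D m hD hkm hDm _
    have h1 := hR.up m (by omega)
    have hM : k * max (D - 1) 1 ≤ m := by
      rcases le_total (D - 1) 1 with h | h
      · rw [max_eq_right h]
        omega
      · rw [max_eq_left h, mul_comm]
        exact hDm.le
    have hM' : (k : ℝ) * ((max (D - 1) 1 : ℕ) : ℝ) ≤ m := by exact_mod_cast hM
    have hM0 : (0 : ℝ) < (k : ℝ) * ((max (D - 1) 1 : ℕ) : ℝ) := by
      have : 0 < k * max (D - 1) 1 := Nat.mul_pos hk1 (by omega)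
      exact_mod_cast this
    have h2 : (m : ℝ) ^ (-(1 + α)) ≤ ((k : ℝ) * ((max (D - 1) 1 : ℕ) : ℝ)) ^ (-(1 + α)) :=
      Real.rpow_le_rpow_of_nonpos hM0 hM' (by linarith)
    have h3 : kk K m / 2 ≤ gl α c k D := by
      unfold gl
      have h4 := mul_le_mul_of_nonneg_left h2 hc0.le
      linarith
    have h5 : pk K m * 2⁻¹ = ENNReal.ofReal (kk K m / 2) := by
      unfold pk
      rw [ENNReal.ofReal_div_of_pos (by norm_num)]
      rw [div_eq_mul_inv]
      norm_num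
    rw [h5]
    exact ENNReal.ofReal_le_ofReal h3
  · intro θ s hθ hs hθs n
    have hgl : ∀ D : ℕ, 0 ≤ gl α c k D := by
      intro D
      unfold gl
      positivity
    have hterm : ∀ D : ℕ, gl α c k D ^ θ =
        (c * (k : ℝ) ^ (-(1 + α))) ^ θ * ((max (D - 1) 1 : ℕ) : ℝ) ^ (-(1 + s)) := by
      intro D
      unfold gl
      rw [Real.mul_rpow hkpos.le (Nat.cast_nonneg _), ← mul_assoc,
        Real.mul_rpow (by positivity) (by positivity), ← Real.rpow_mul (Nat.cast_nonneg _)]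
      congr 2
      linarith
    have e1 : ∀ D ∈ Finset.Icc 1 n, ENNReal.ofReal (gl α c k D) ^ θ =
        ENNReal.ofReal (gl α c k D ^ θ) := fun D _ =>
      ENNReal.ofReal_rpow_of_nonneg (hgl D) hθ.le
    rw [Finset.sum_congr rfl e1, ← ENNReal.ofReal_sum_of_nonneg (fun D _ =>
      Real.rpow_nonneg (hgl D) _)]
    apply ENNReal.ofReal_le_ofReal
    rw [Finset.sum_congr rfl (fun D _ => hterm D), ← Finset.mul_sum]
    exact mul_le_mul_of_nonneg_left (sum_le s hs n) (by positivity)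

end Pool.Agent.H70.SLN
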